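import Pool.Agent.Helper33.QB.Model
import Pool.Agent.Helper6.QB.Ot
import Pool.Agent.Helper87.QB.Bridge
import Pool.Agent.Helper33.QB.Conv
import Pool.Agent.Helper52.MA.Main

/-!
# MP_0eabd7_lc, Q2 is undecidable

Let `α = ω ^ γ` be an infinite countable indecomposable ordinal.

(a) If the sentence `S_α` is true then there is a Boolean algebra with property (P) and with the
cardinal sequence `⟨ℵ₁, ℵ₁, …, 1⟩` of length `α`.

(b) There is a countable transitive model of ZFC in which `S_α` is true.

(c) If Martin's Axiom for `ℵ₁` dense sets holds for preorders on `ω₁`, then there is no such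
algebra.

(d) There is a countable transitive model of ZFC in which Martin's Axiom for `ℵ₁` dense sets holds
for preorders on `ω₁`.
-/

set_option autoImplicit false

open Cardinal Ordinal Set

namespace Pool.Agent.Results.MP_0eabd7_lc.Independence

open Pool.Agent.Helper33.QB Pool.Agent.Helper93.QuotBA Pool.Agent.Helper32.HB
  Pool.Agent.Helper52.MA

theorem result : ∀ γ : Ordinal.{0}, 1 ≤ γ → γ < ω₁ →
    ((∀ (O : Type) (lt : O → O → Prop) (a : O), OrdT lt a (ω ^ γ) → Sent lt a univ univ univ →
        ∃ (B : Type) (_ : BooleanAlgebra B), PropertyP B ∧ HasCardinalSequence B ℵ₁ (ω ^ γ)) ∧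
      ∃ M : Set ZFSet.{0}, M.Countable ∧ IsTransModelZFC M ∧
        ∃ w ∈ M, ∃ a : Mem w, w.IsOrdinal ∧ OrdT (memR w) a (ω ^ γ) ∧
          Sent (memR w) a (sets1 M w) (sets2 M w) (sets3 M w)) ∧
    (MASentence (Ordinal.omega.{0} 1).ToType (fun x y => x < y) univ univ →
        ¬ ∃ (B : Type) (_ : BooleanAlgebra B),
          PropertyP B ∧ HasCardinalSequence B ℵ₁ (ω ^ γ)) ∧
      ∃ M : Set ZFSet.{0}, M.Countable ∧ IsTransModelZFC M ∧
        ∃ w ∈ M, IsOmega1 M w ∧ (∃ a : Mem w, OrdT (memR w) a (ω ^ γ)) ∧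
          MASentence (Mem w) (memR w) (sets1 M w) (sets2 M w) := by
  intro γ h1 h2
  have hα : Ind (ω ^ γ) := ind_opow h1 h2
  have hlt : ω ^ γ < ω₁ := Ordinal.isPrincipal_opow_omega 1 Ordinal.omega0_lt_omega_one h2
  refine ⟨⟨fun O lt a ho hS => zfc_bridge hα ho hS, exists_model hα⟩, ?_, ?_⟩
  · intro h
    exact Pool.Agent.Helper33.QBConv.no_algebra (ma1_of_omega1 h) hα.one hlt
  · obtain ⟨M, hM1, hM2, w, hw, h3, h4, h5⟩ := exists_ma_model_ordinal (ω ^ γ) hlt
    have e1 : sets1 M w = setsM M w := by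
      ext E
      exact exists_congr fun e => and_congr_right fun _ => forall_congr' fun x => iff_comm
    have e2 : sets2 M w = relsM M w := by
      ext F
      exact exists_congr fun e => and_congr_right fun _ => forall_congr' fun x =>
        forall_congr' fun y => iff_comm
    refine ⟨M, hM1, hM2, w, hw, h3, h4, ?_⟩
    rw [e1, e2]
    exact h5

end Pool.Agent.Results.MP_0eabd7_lc.Independence
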