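import Pool.Agent.Helper93.QuotBAMain

/-!
# A Boolean algebra isomorphic to all its uncountable quotients, with all Cantor-Bendixson levels
of size `ℵ₁` and height `ω₁`
-/

open Cardinal Ordinal

namespace Pool.Agent.Results.MP_0eabd7_lc.LengthOmegaOne

open Pool.Agent.Helper93.QuotBA

/-- There is a Boolean algebra with property (P) whose cardinal sequence is
`⟨ℵ₁, ℵ₁, ..., 1⟩` of length `ω₁`. -/
theorem result : ∃ (B : Type) (_ : BooleanAlgebra B),
    PropertyP B ∧ HasCardinalSequence B ℵ₁ ω₁ :=
  exists_algebra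

end Pool.Agent.Results.MP_0eabd7_lc.LengthOmegaOne
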